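import Mathlib
import Pool.Agent.TH591.Ns.Flat

set_option autoImplicit false

/-!
# MP_eba1ef_gt: convex bodies (not necessarily symmetric) with thin supporting slabs

Let `K` be any convex body in `ℝ^d` with `0` in its interior, `g` its gauge; no symmetry is
assumed. A linear functional `φ` with `φ ≤ 1` on `K` is called `τ`-thin if the part of `K` where
`|φ| ≥ 1/4` has at most the fraction `τ` of the volume of `K`. The *thin part* of `K` consists
of the points `z ∈ K` with `φ(z) = g(z)` for some thin `φ`.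

We prove: if the thin part has at least the fraction `β` of the volume of `K` then
`c(K) ≤ 1 + 12 d log(2d²+2d+1) 2^d τ^(β/60)`, and `c(K) < 2^d` if
`17 d log(2d²+2d+1) τ^(β/60) ≤ 1`.

We deduce `c(K) ≤ 1 + 13 d log(2d²+2d+1) 2^d exp(-1/(7680 f))`, where the flatness `f` is the
average over `z, z' ∈ K` of `|Dg(z)[z']|`. The flatness is at most `1/R` if in all directions the
distance of the supporting hyperplane from `0` is at least `R` times the root mean square over `K`
of the distance from the parallel hyperplane through `0`. So every convex body with this property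
for `R ≥ 7680 log(19 d log(2d²+2d+1))` is covered by less than `2^d` translates of its interior.

For centrally symmetric bodies (and `0` the centre) this is the theorem `ThinSlabs` with other
constants. Its proof used the symmetry in an essential way: if no translate of `K` contains many of
the points `u_i ∈ K` then the density of `u_i + z`, for random `i` and random `z ∈ K`, is bounded.
Without symmetry it is the translates of `-K` which one would have to know for that. Here the
density is estimated in `L²` instead: its square integral is the average over `i, j` of the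
volume of `(u_i + K) ∩ (u_j + K)`, and this does involve only the translates of `K` (as in the
bound for all convex bodies, `AllConvexBodies`). By the Cauchy-Schwarz inequality an event
with probability `p` for a random point of `K` has probability at most a multiple of `√p` for
`(u_i + z) / 2`, which is enough for the rest: (1) hardly any `u_i` lies in the halfspace `φ ≥ 3/4`
of a thin `φ`; (2) most of the points `(u_i + z) / 2` are close to the boundary of
`P = {φ ≤ 1 for all thin φ}`, as the volume of `K ∩ (1-k/d) P` decays exponentially in `k`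
(Brunn-Minkowski); but then `z + (8k/d) u_i` is outside of `P`, which by (1) happens rarely. The
thinness of most supporting functionals for small flatness follows from Brunn-Minkowski.
-/

namespace Pool.Agent.Results.MP_eba1ef_gt.AsymmetricThinSlabs

open MeasureTheory
open scoped Pointwise ENNReal
open Pool.Agent.TH591.Ns

/-- `φ` is `τ`-thin for `K`: `φ ≤ 1` on `K`, and `|φ| ≥ 1/4` holds on at most the fraction `τ`
of `K`. -/
def IsThin {d : ℕ} (K : Set (EuclideanSpace ℝ (Fin d))) (τ : ℝ)
    (φ : EuclideanSpace ℝ (Fin d) →L[ℝ] ℝ) : Prop :=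
  (∀ x ∈ K, φ x ≤ 1) ∧ (volume {z ∈ K | 1 / 4 ≤ |φ z|}).toReal ≤ τ * (volume K).toReal

/-- The thin part of `K`: the points `z` of `K` with `φ z = g z` for some `τ`-thin `φ`, where `g` is
the gauge (Minkowski functional) of `K`. -/
def thinPart {d : ℕ} (K : Set (EuclideanSpace ℝ (Fin d))) (τ : ℝ) :
    Set (EuclideanSpace ℝ (Fin d)) :=
  {z ∈ K | ∃ φ : EuclideanSpace ℝ (Fin d) →L[ℝ] ℝ, IsThin K τ φ ∧ φ z = gauge K z}

/-- The flatness of a convex body `K` (with `0` in its interior): the average over `z, z' ∈ K`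
of `|Dg(z)[z']|`, where `g` is the gauge (Minkowski functional) of `K`. -/
noncomputable def flatness {d : ℕ} (K : Set (EuclideanSpace ℝ (Fin d))) : ℝ :=
  (∫ z in K, ∫ z' in K, |fderiv ℝ (gauge K) z z'|) / (volume K).toReal ^ 2

/-- In all directions, the distance of the supporting hyperplane of `K` from `0` is at least `R`
times the root mean square over `K` of the distance from the parallel hyperplane through `0`
(here the functional `φ` is normalized such that its maximum on `K` is at most `1`). -/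
def IsRound {d : ℕ} (K : Set (EuclideanSpace ℝ (Fin d))) (R : ℝ) : Prop :=
  ∀ φ : EuclideanSpace ℝ (Fin d) →L[ℝ] ℝ, (∀ x ∈ K, φ x ≤ 1) → R ^ 2 * (⨍ x in K, (φ x) ^ 2) ≤ 1

theorem strict_of_bound (d : ℕ) (hd : 2 ≤ d) (n : ℕ) (x : ℝ)
    (h : (n : ℝ) ≤ 1 + 12 * d * Real.log (2 * d ^ 2 + 2 * d + 1) * 2 ^ d * x)
    (hx : 17 * d * Real.log (2 * d ^ 2 + 2 * d + 1) * x ≤ 1) : n < 2 ^ d := by
  have h2 : (4 : ℝ) ≤ 2 ^ d := by
    calc (4 : ℝ) = 2 ^ 2 := by norm_num
      _ ≤ 2 ^ d := pow_le_pow_right₀ (by norm_num) hd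
  have h3 : (n : ℝ) < ((2 ^ d : ℕ) : ℝ) := by
    push_cast
    calc (n : ℝ) ≤ 1 + 12 * d * Real.log (2 * d ^ 2 + 2 * d + 1) * 2 ^ d * x := h
      _ = 1 + 12 / 17 * 2 ^ d * (17 * d * Real.log (2 * d ^ 2 + 2 * d + 1) * x) := by ring
      _ ≤ 1 + 12 / 17 * 2 ^ d * 1 := by gcongr
      _ < 2 ^ d := by linarith
  exact_mod_cast h3

/-- **Main theorem.** -/
theorem result (d : ℕ) (hd : 2 ≤ d) (K : Set (EuclideanSpace ℝ (Fin d)))
    (hK : Convex ℝ K) (hKc : IsCompact K) (hKi : 0 ∈ interior K) :
    -- thin supporting slabs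
    (∀ τ β : ℝ, 0 < τ → 0 < β → β ≤ 1 →
      β * (volume K).toReal ≤ (volume (thinPart K τ)).toReal →
      ∃ T : Finset (EuclideanSpace ℝ (Fin d)),
        K ⊆ ⋃ t ∈ T, (fun x => t + x) '' interior K ∧
        (T.card : ℝ) ≤ 1 + 12 * d * Real.log (2 * d ^ 2 + 2 * d + 1) * 2 ^ d * τ ^ (β / 60) ∧
        (17 * d * Real.log (2 * d ^ 2 + 2 * d + 1) * τ ^ (β / 60) ≤ 1 → T.card < 2 ^ d)) ∧
    -- small flatness
    (∀ ρ : ℝ, 0 < ρ → flatness K ≤ ρ →
      ∃ T : Finset (EuclideanSpace ℝ (Fin d)),
        K ⊆ ⋃ t ∈ T, (fun x => t + x) '' interior K ∧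
        (T.card : ℝ) ≤ 1 + 13 * d * Real.log (2 * d ^ 2 + 2 * d + 1) * 2 ^ d
          * Real.exp (-(1 / (7680 * ρ))) ∧
        (19 * d * Real.log (2 * d ^ 2 + 2 * d + 1) * Real.exp (-(1 / (7680 * ρ))) ≤ 1 →
          T.card < 2 ^ d)) ∧
    -- round bodies have small flatness
    (∀ R : ℝ, 0 < R → IsRound K R → flatness K ≤ 1 / R) ∧
    -- round bodies satisfy the conjecture
    (∀ R : ℝ, 7680 * Real.log (19 * d * Real.log (2 * d ^ 2 + 2 * d + 1)) ≤ R → IsRound K R →
      ∃ T : Finset (EuclideanSpace ℝ (Fin d)),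
        K ⊆ ⋃ t ∈ T, (fun x => t + x) '' interior K ∧ T.card < 2 ^ d) := by
  classical
  have hK0 : K ∈ nhds (0 : EuclideanSpace ℝ (Fin d)) := mem_interior_iff_mem_nhds.mp hKi
  have hg := isG_gauge hK hK0
  have hball := ball_eq hK hKc hK0
  have hmem : ∀ y, gauge K y ≤ 1 ↔ y ∈ K := by
    intro y
    conv_rhs => rw [← hball]
    exact Iff.rfl
  have hV0 : volume K ≠ 0 := (Measure.measure_pos_of_mem_nhds volume hK0).ne'
  have hVt : volume K ≠ ⊤ := hKc.measure_lt_top.ne
  have hvol0 : volume {y : EuclideanSpace ℝ (Fin d) | gauge K y ≤ 1} ≠ 0 := by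
    rw [hball]; exact hV0
  have hvolt : volume {y : EuclideanSpace ℝ (Fin d) | gauge K y ≤ 1} ≠ ⊤ := by
    rw [hball]; exact hVt
  have hVr : 0 < (volume K).toReal := ENNReal.toReal_pos hV0 hVt
  have hd' : (2 : ℝ) ≤ d := by exact_mod_cast hd
  have hlogpos : 0 ≤ Real.log (2 * (d : ℝ) ^ 2 + 2 * d + 1) := Real.log_nonneg (by nlinarith)
  obtain ⟨r, hr0, hr⟩ := Metric.mem_nhds_iff.mp hK0
  have hlip : LipschitzWith (⟨r, hr0.le⟩ : NNReal)⁻¹ (gauge K) :=
    hK.lipschitzWith_gauge (r := ⟨r, hr0.le⟩) (by exact_mod_cast hr0) hr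
  have hdiff : ∀ᵐ z : EuclideanSpace ℝ (Fin d), DifferentiableAt ℝ (gauge K) z :=
    hlip.ae_differentiableAt
  -- a functional which is at most one on `K`
  have hle : ∀ φ : EuclideanSpace ℝ (Fin d) →L[ℝ] ℝ, (∀ x ∈ K, φ x ≤ 1) → ∀ y, φ y ≤ gauge K y := by
    intro φ hφ y
    refine le_of_forall_pos_le_add fun ε hε => ?_
    have hc : 0 < gauge K y + ε := by
      have := hg.nonneg y
      linarith
    have h1 := hφ ((gauge K y + ε)⁻¹ • y) ((hmem _).1 (by
      rw [hg.smul _ (by positivity), inv_mul_le_iff₀ hc]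
      linarith))
    rw [map_smul, smul_eq_mul, inv_mul_le_iff₀ hc] at h1
    linarith
  have hone : ∀ z, ∀ x ∈ K, fderiv ℝ (gauge K) z x ≤ 1 := fun z x hx =>
    (fderiv_le_g hg z x).trans ((hmem x).2 hx)
  -- a bound of all functionals
  obtain ⟨B, hB⟩ := hKc.isBounded.subset_closedBall (0 : EuclideanSpace ℝ (Fin d))
  have hbdd : ∀ z, ∀ x ∈ K, |fderiv ℝ (gauge K) z x| ≤ 1 + r⁻¹ * |B| := by
    intro z x hx
    have hxB : ‖x‖ ≤ |B| := by
      have := hB hx
      rw [mem_closedBall_zero_iff] at this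
      exact this.trans (le_abs_self _)
    have h1 : gauge K (-x) ≤ r⁻¹ * |B| := by
      have h2 := hlip.dist_le_mul (-x) 0
      rw [hg.zero, Real.dist_eq, sub_zero, dist_zero_right, norm_neg] at h2
      calc gauge K (-x) ≤ |gauge K (-x)| := le_abs_self _
        _ ≤ _ := h2
        _ = r⁻¹ * ‖x‖ := by push_cast; rfl
        _ ≤ r⁻¹ * |B| := by gcongr
    have h2 := fderiv_le_g hg z (-x)
    rw [map_neg] at h2
    have h3 := hone z x hx
    have h4 : 0 ≤ r⁻¹ * |B| := by positivity
    rw [abs_le]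
    constructor <;> linarith
  set C : ℝ := 1 + r⁻¹ * |B| with hC
  have hC0 : 0 ≤ C := by positivity
  -- the inner integral
  have hmz : ∀ z : EuclideanSpace ℝ (Fin d), Measurable fun z' : EuclideanSpace ℝ (Fin d) =>
      |fderiv ℝ (gauge K) z z'| := fun z => ((fderiv ℝ (gauge K) z).continuous.abs).measurable
  have hin : ∀ z : EuclideanSpace ℝ (Fin d), ∫ z' in K, |fderiv ℝ (gauge K) z z'|
      = (inn (gauge K) z).toReal := by
    intro z
    rw [integral_eq_lintegral_of_nonneg_ae (Filter.Eventually.of_forall fun _ => abs_nonneg _)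
      (hmz z).aestronglyMeasurable]
    unfold inn
    rw [hball]
  have hinnm : Measurable (inn (gauge K)) := inn_meas _
  have hinnle : ∀ z, inn (gauge K) z ≤ ENNReal.ofReal C * volume K := by
    intro z
    unfold inn
    rw [hball, ← setLIntegral_const]
    exact setLIntegral_mono' hKc.isClosed.measurableSet fun x hx =>
      ENNReal.ofReal_le_ofReal (hbdd z x hx)
  have hCV : ENNReal.ofReal C * volume K ≠ ⊤ := ENNReal.mul_ne_top ENNReal.ofReal_ne_top hVt
  have hinnt : ∀ z, inn (gauge K) z < ⊤ := fun z => lt_of_le_of_lt (hinnle z) hCV.lt_top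
  have hout : ∫ z in K, ∫ z' in K, |fderiv ℝ (gauge K) z z'|
      = (∫⁻ z in K, inn (gauge K) z).toReal := by
    simp only [hin]
    exact integral_toReal hinnm.aemeasurable (Filter.Eventually.of_forall hinnt)
  have hoverV : ∫⁻ z in K, inn (gauge K) z ≠ ⊤ := by
    refine ne_top_of_le_ne_top (ENNReal.mul_ne_top hCV hVt) ?_
    calc ∫⁻ z in K, inn (gauge K) z ≤ ∫⁻ _ in K, ENNReal.ofReal C * volume K :=
          lintegral_mono fun z => hinnle z
      _ = ENNReal.ofReal C * volume K * volume K := by rw [setLIntegral_const]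
  have part1 : ∀ τ β : ℝ, 0 < τ → 0 < β → β ≤ 1 →
      β * (volume K).toReal ≤ (volume (thinPart K τ)).toReal →
      ∃ T : Finset (EuclideanSpace ℝ (Fin d)),
        K ⊆ ⋃ t ∈ T, (fun x => t + x) '' interior K ∧
        (T.card : ℝ) ≤ 1 + 12 * d * Real.log (2 * d ^ 2 + 2 * d + 1) * 2 ^ d * τ ^ (β / 60) ∧
        (17 * d * Real.log (2 * d ^ 2 + 2 * d + 1) * τ ^ (β / 60) ≤ 1 → T.card < 2 ^ d) := by
    intro τ β hτ hβ0 hβ1 hthin
    have hthinfin : volume (thinPart K τ) ≠ ⊤ :=
      ne_top_of_le_ne_top hVt (measure_mono fun z hz => hz.1)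
    have hS : ENNReal.ofReal β * volume K ≤ volume {z : EuclideanSpace ℝ (Fin d) | z ∈ K ∧
        ∃ φ, IsThinG (gauge K) τ φ ∧ φ z = gauge K z} := by
      have h1 : ENNReal.ofReal β * volume K ≤ volume (thinPart K τ) := by
        rw [← ENNReal.toReal_le_toReal (ENNReal.mul_ne_top ENNReal.ofReal_ne_top hVt) hthinfin,
          ENNReal.toReal_mul, ENNReal.toReal_ofReal hβ0.le]
        exact hthin
      refine h1.trans (measure_mono ?_)
      rintro z ⟨hz, φ, ⟨hφ1, hφ2⟩, hφz⟩
      refine ⟨hz, φ, ⟨hle φ hφ1, ?_⟩, hφz⟩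
      rw [hball]
      have e : {z : EuclideanSpace ℝ (Fin d) | gauge K z ≤ 1 ∧ 1 / 4 ≤ |φ z|}
          = {z ∈ K | 1 / 4 ≤ |φ z|} := by
        ext y
        simp only [Set.mem_ofPred_eq, hmem]
      rw [e, ← ENNReal.toReal_le_toReal
        (ne_top_of_le_ne_top hVt (measure_mono fun z hz => hz.1))
        (ENNReal.mul_ne_top ENNReal.ofReal_ne_top hVt), ENNReal.toReal_mul,
        ENNReal.toReal_ofReal hτ.le]
      exact hφ2
    obtain ⟨T, hT1, hT2⟩ := thin_cover hd hK hKc hK0 β τ hβ0 hβ1 hτ hS
    exact ⟨T, hT1, hT2, fun hx => strict_of_bound d hd _ _ hT2 hx⟩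
  have part2 : ∀ ρ : ℝ, 0 < ρ → flatness K ≤ ρ →
      ∃ T : Finset (EuclideanSpace ℝ (Fin d)),
        K ⊆ ⋃ t ∈ T, (fun x => t + x) '' interior K ∧
        (T.card : ℝ) ≤ 1 + 13 * d * Real.log (2 * d ^ 2 + 2 * d + 1) * 2 ^ d
          * Real.exp (-(1 / (7680 * ρ))) ∧
        (19 * d * Real.log (2 * d ^ 2 + 2 * d + 1) * Real.exp (-(1 / (7680 * ρ))) ≤ 1 →
          T.card < 2 ^ d) := by
    intro ρ hρ hflat
    have hF : ∫⁻ z in {y : EuclideanSpace ℝ (Fin d) | gauge K y ≤ 1}, inn (gauge K) z
        ≤ ENNReal.ofReal ρ * (volume {y : EuclideanSpace ℝ (Fin d) | gauge K y ≤ 1}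
          * volume {y : EuclideanSpace ℝ (Fin d) | gauge K y ≤ 1}) := by
      rw [hball]
      rw [← ENNReal.toReal_le_toReal hoverV
        (ENNReal.mul_ne_top ENNReal.ofReal_ne_top (ENNReal.mul_ne_top hVt hVt)),
        ENNReal.toReal_mul, ENNReal.toReal_mul, ENNReal.toReal_ofReal hρ.le, ← hout]
      unfold flatness at hflat
      rw [div_le_iff₀ (by positivity)] at hflat
      refine hflat.trans (le_of_eq ?_)
      ring
    have hthin := thin_of_flat hg hdiff hvol0 hvolt ρ hρ hF
    have hthin' : ENNReal.ofReal (1 / 2) * volume K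
        ≤ volume {z : EuclideanSpace ℝ (Fin d) | z ∈ K ∧
          ∃ φ, IsThinG (gauge K) (6 * Real.exp (-(1 / (64 * ρ)))) φ ∧ φ z = gauge K z} := by
      rw [hball] at hthin
      refine hthin.trans (measure_mono ?_)
      rintro z ⟨h1, h2⟩
      exact ⟨(hmem z).1 h1, h2⟩
    obtain ⟨T, hT1, hT2⟩ := thin_cover hd hK hKc hK0 (1 / 2)
      (6 * Real.exp (-(1 / (64 * ρ)))) (by norm_num) (by norm_num) (by positivity) hthin'
    have hnum := flat_num ρ hρ
    have hc0 : 0 ≤ 12 * (d : ℝ) * Real.log (2 * d ^ 2 + 2 * d + 1) * 2 ^ d := by positivity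
    have hT3 : (T.card : ℝ)
        ≤ 1 + 12 * d * Real.log (2 * d ^ 2 + 2 * d + 1) * 2 ^ d
          * (13 / 12 * Real.exp (-(1 / (7680 * ρ)))) :=
      hT2.trans (add_le_add le_rfl (mul_le_mul_of_nonneg_left hnum hc0))
    refine ⟨T, hT1, hT3.trans (le_of_eq (by ring)), fun hx => ?_⟩
    refine strict_of_bound d hd _ _ hT3 ?_
    have hex := Real.exp_pos (-(1 / (7680 * ρ)))
    have h1 : 0 ≤ (d : ℝ) * Real.log (2 * d ^ 2 + 2 * d + 1) * Real.exp (-(1 / (7680 * ρ))) := by
      positivity
    linarith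
  have part3 : ∀ R : ℝ, 0 < R → IsRound K R → flatness K ≤ 1 / R := by
    intro R hR hround
    have hz1 : ∀ z, (inn (gauge K) z).toReal ≤ 1 / R * (volume K).toReal := by
      intro z
      rw [← hin z]
      set φ := fderiv ℝ (gauge K) z with hφ
      have h1 := hround φ (hone z)
      rw [setAverage_eq, smul_eq_mul] at h1
      have hVr' : 0 < volume.real K := hVr
      have h2 : R ^ 2 * (∫ x in K, (φ x) ^ 2) ≤ volume.real K := by
        have : R ^ 2 * ((volume.real K)⁻¹ * ∫ x in K, (φ x) ^ 2)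
            = (R ^ 2 * ∫ x in K, (φ x) ^ 2) / volume.real K := by
          field_simp
        rw [this, div_le_one hVr'] at h1
        exact h1
      have hK2 : IntegrableOn (fun x : EuclideanSpace ℝ (Fin d) => (φ x) ^ 2) K :=
        (φ.continuous.pow 2).continuousOn.integrableOn_compact hKc
      calc ∫ z' in K, |φ z'|
          ≤ ∫ z' in K, (R / 2 * (φ z') ^ 2 + 1 / (2 * R)) := by
            refine integral_mono_of_nonneg (Filter.Eventually.of_forall fun _ => abs_nonneg _)
              ?_ (Filter.Eventually.of_forall ?_)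
            · exact (hK2.const_mul _).add (integrableOn_const hVt)
            · intro x
              show |φ x| ≤ R / 2 * (φ x) ^ 2 + 1 / (2 * R)
              have h1 : 0 ≤ (R * |φ x| - 1) ^ 2 / (2 * R) := by positivity
              have h2 : (R * |φ x| - 1) ^ 2 / (2 * R)
                  = R / 2 * (φ x) ^ 2 + 1 / (2 * R) - |φ x| := by
                rw [← sq_abs (φ x)]
                field_simp
                ring
              linarith
        _ = 1 / (2 * R) * (R ^ 2 * ∫ z' in K, (φ z') ^ 2) + 1 / (2 * R) * (volume K).toReal := by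
            rw [integral_add (hK2.const_mul _) (integrableOn_const hVt), integral_const_mul,
              setIntegral_const, smul_eq_mul, Measure.real]
            field_simp
        _ ≤ 1 / (2 * R) * (volume K).toReal + 1 / (2 * R) * (volume K).toReal := by
            have : R ^ 2 * (∫ x in K, (φ x) ^ 2) ≤ (volume K).toReal := h2
            gcongr
        _ = 1 / R * (volume K).toReal := by
            field_simp
            ring
    unfold flatness
    rw [div_le_iff₀ (by positivity)]
    simp only [hin]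
    calc ∫ z in K, (inn (gauge K) z).toReal ≤ ∫ _ in K, 1 / R * (volume K).toReal := by
          refine integral_mono_of_nonneg (Filter.Eventually.of_forall fun _ => ENNReal.toReal_nonneg)
            ?_ (Filter.Eventually.of_forall hz1)
          exact integrableOn_const hVt
      _ = 1 / R * (volume K).toReal ^ 2 := by
          rw [setIntegral_const, smul_eq_mul, Measure.real]
          ring
  refine ⟨part1, part2, part3, fun R hR hround => ?_⟩
  set L : ℝ := 19 * d * Real.log (2 * d ^ 2 + 2 * d + 1) with hL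
  have hL1 : 1 < L := by
    have h1 : 1 ≤ Real.log (2 * (d : ℝ) ^ 2 + 2 * d + 1) := by
      rw [Real.le_log_iff_exp_le (by positivity)]
      have := Real.exp_one_lt_d9
      nlinarith
    rw [hL]
    nlinarith
  have hlogL : 0 < Real.log L := Real.log_pos hL1
  have hR0 : 0 < R := by linarith
  obtain ⟨T, hT1, -, hT3⟩ := part2 (1 / R) (by positivity) (part3 R hR0 hround)
  refine ⟨T, hT1, hT3 ?_⟩
  have e1 : 1 / (7680 * (1 / R)) = R / 7680 := by field_simp
  rw [e1]
  have h2 : Real.exp (-(R / 7680)) ≤ L⁻¹ := by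
    rw [← Real.exp_log (show 0 < L⁻¹ by positivity), Real.exp_le_exp, Real.log_inv]
    linarith
  calc L * Real.exp (-(R / 7680)) ≤ L * L⁻¹ := by gcongr
    _ = 1 := mul_inv_cancel₀ (by positivity)

end Pool.Agent.Results.MP_eba1ef_gt.AsymmetricThinSlabs
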