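import Mathlib
import Pool.Agent.TH591.Sq.Body

set_option autoImplicit false

/-!
# MP_eba1ef_gt: unit balls of subspaces of `L_1`- and `L_q`-sums of small spaces

Let `q ≥ 1` and let `h_ω` be a measurable family of seminorms on `ℝ^d`, each of which vanishes on
a subspace of codimension at most `n`. Let `K = {x | ∫ h_ω(x)^q dμ(ω) ≤ 1}` be bounded. In other
words, `K` is the unit ball of a `d`-dimensional subspace of an `L_q`-sum (or a direct integral)
of arbitrary normed spaces of dimension at most `n`. For `q = 1` these are the polar bodies of the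
Minkowski sums (and integrals) of centrally symmetric convex sets of dimension at most `n`; so for
`n = q = 1` they are the unit balls of the subspaces of `L_1`, i.e. the polar bodies of zonoids.

We prove that `K` is covered by at most `1 + 13 d log(4d+1) 2^d e^(-2s)` translates of its
interior, where `s = √(d/(n+q+1)) / 16280`, and by less than `2^d` translates if `s ≥ 5` and
`s ≥ log d`, i.e. if `n + q + 1 ≤ d / (16280 max(5, log d))^2`. In particular, for given `n` and
`q` Hadwiger's conjecture is true for all these bodies in all sufficiently high dimensions.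

These spaces may contain `ℓ_1^m` isometrically for all `m ≤ d` (if `q = 1`), resp. for all `m ≤ n`
(if `q > 1`), so they are not covered by the theorem on spaces without almost isometric copies of
`ℓ_1^m` (`NoAlmostEllOne`), which needs `m ≤ C log d`; that theorem gives a better bound if `q > 1`
is fixed and `n = 1` (or `n ≤ c log d`).

The proof. Let `φ(x) = ‖x‖_K^q = ∫ h_ω(x)^q dμ(ω)` and consider the log-concave density `e^(-φ)`.
(a) Each term `h = h_ω` depends only on `n` linear functions of `x`, whose density `r` is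
log-concave (Prékopa) and even. For `B(s) = ∫ r(y) h(y + s v)^q dy` log-concavity and homogeneity
give `B''(s) ≥ (1-s)^(n+q) (r(v)/r(0))^s B''(0)`. Integrating this over `0 ≤ s ≤ t ~ 1/(n+q)` and
averaging over `v` with the density `r`, the average of the second derivative of `h_ω^q` in the
random direction `v` is at most `C q (n+q)` times the average of `h_ω^q`. (This is done for second
differences, as `h_ω` need not be smooth.) (b) Second derivatives are additive: so the same holds
for `φ`, whose average is at most `(d+q)/q`. (c) Integrating by parts, the average of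
`(Dφ(x)[v])^2` over independent `x` and `v` is at most `C (n+q) (d+q)`. By homogeneity, the average
over `z, z' ∈ K` of `(D‖·‖(z)[z'])^2` is at most `121 (n+q+1)/d`. (d) So `K` has small flatness,
and the covering theorem for bodies with small flatness (`ThinSlabs`) applies.
-/

namespace Pool.Agent.Results.MP_eba1ef_gt.LqSumsOfSmallSpaces

open MeasureTheory

universe u

/-- `K = {x | ∫ h_ω(x)^q dμ(ω) ≤ 1}` is bounded, where `h_ω` is a measurable family of seminorms,
each of which vanishes on a subspace `W` of codimension at most `n`, on an s-finite measure space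
`Ω`. (The functions `h_ω(x)^q` of `ω` are integrable.) -/
def IsLqBody {d : ℕ} (n : ℕ) (q : ℝ) (K : Set (EuclideanSpace ℝ (Fin d))) : Prop :=
  Bornology.IsBounded K ∧
  ∃ (Ω : Type u) (_ : MeasurableSpace Ω) (μ : Measure Ω) (_ : SFinite μ)
    (h : Ω → Seminorm ℝ (EuclideanSpace ℝ (Fin d))),
    Measurable (fun z : Ω × EuclideanSpace ℝ (Fin d) => h z.1 z.2) ∧
    (∀ ω, ∃ W : Submodule ℝ (EuclideanSpace ℝ (Fin d)),
      (∀ w ∈ W, h ω w = 0) ∧ d ≤ Module.finrank ℝ W + n) ∧
    (∀ x, Integrable (fun ω => h ω x ^ q) μ) ∧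
    K = {x | ∫ ω, h ω x ^ q ∂μ ≤ 1}

/-- The unit ball of the subspace of `L_q(μ)` spanned by `f_1, …, f_d` belongs to the class. -/
theorem isLqBody_of_memLp {d : ℕ} (q : ℝ) (hq : 1 ≤ q) {Ω : Type u} [MeasurableSpace Ω]
    (μ : Measure Ω) [SFinite μ] (f : Fin d → Ω → ℝ) (hfm : ∀ i, Measurable (f i))
    (hf : ∀ i, MemLp (f i) (ENNReal.ofReal q) μ)
    (hb : Bornology.IsBounded
      {x : EuclideanSpace ℝ (Fin d) | ∫ ω, |∑ i, x i * f i ω| ^ q ∂μ ≤ 1}) :
    IsLqBody.{u} 1 q {x : EuclideanSpace ℝ (Fin d) | ∫ ω, |∑ i, x i * f i ω| ^ q ∂μ ≤ 1} := by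
  have hq0 : 0 < q := by linarith
  let L : Ω → EuclideanSpace ℝ (Fin d) →ₗ[ℝ] ℝ := fun ω =>
    ∑ i, f i ω • ((EuclideanSpace.proj i : EuclideanSpace ℝ (Fin d) →L[ℝ] ℝ) :
      EuclideanSpace ℝ (Fin d) →ₗ[ℝ] ℝ)
  have hL : ∀ ω x, L ω x = ∑ i, x i * f i ω := by
    intro ω x
    simp only [L, LinearMap.sum_apply, LinearMap.smul_apply, smul_eq_mul]
    exact Finset.sum_congr rfl fun i _ => mul_comm _ _
  let h : Ω → Seminorm ℝ (EuclideanSpace ℝ (Fin d)) := fun ω => (normSeminorm ℝ ℝ).comp (L ω)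
  have hh : ∀ ω x, h ω x = |∑ i, x i * f i ω| := by
    intro ω x
    show ‖L ω x‖ = _
    rw [hL, Real.norm_eq_abs]
  refine ⟨hb, Ω, _, μ, inferInstance, h, ?_, fun ω => ⟨LinearMap.ker (L ω), ?_, ?_⟩, fun x => ?_, ?_⟩
  · simp only [hh]
    refine measurable_abs.comp (Finset.measurable_sum _ fun i _ => ?_)
    refine Measurable.mul ?_ ((hfm i).comp measurable_fst)
    exact ((EuclideanSpace.proj i :
      EuclideanSpace ℝ (Fin d) →L[ℝ] ℝ).continuous.measurable).comp measurable_snd
  · intro w hw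
    rw [LinearMap.mem_ker] at hw
    show ‖L ω w‖ = 0
    rw [hw, norm_zero]
  · have h1 := LinearMap.finrank_range_add_finrank_ker (L ω)
    have h2 : Module.finrank ℝ (LinearMap.range (L ω)) ≤ 1 := by
      have := Submodule.finrank_le (LinearMap.range (L ω))
      simpa using this
    have h3 : Module.finrank ℝ (EuclideanSpace ℝ (Fin d)) = d := by simp
    omega
  · simp only [hh]
    have h1 : MemLp (fun ω => ∑ i, x i * f i ω) (ENNReal.ofReal q) μ :=
      memLp_finsetSum _ fun i _ => (hf i).const_mul (x i)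
    have h2 := h1.integrable_norm_rpow (by simpa using hq0) ENNReal.ofReal_ne_top
    simpa only [Real.norm_eq_abs, ENNReal.toReal_ofReal hq0.le] using h2
  · simp only [hh]

/-- **Main theorem.** -/
theorem result :
    -- the quantitative bound
    (∀ (d n : ℕ) (q : ℝ), 2 ≤ d → 1 ≤ q → ∀ K : Set (EuclideanSpace ℝ (Fin d)),
      IsLqBody.{u} n q K → ∀ s : ℝ, s = √(d / (n + q + 1)) / 16280 →
      ∃ T : Finset (EuclideanSpace ℝ (Fin d)),
        K ⊆ ⋃ t ∈ T, (fun x => t + x) '' interior K ∧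
        (T.card : ℝ) ≤ 1 + 13 * d * Real.log (4 * d + 1) * 2 ^ d * Real.exp (-(2 * s)) ∧
        (5 ≤ s → Real.log d ≤ s → T.card < 2 ^ d)) ∧
    -- Hadwiger's conjecture in high dimensions
    (∀ (n : ℕ) (q : ℝ), 1 ≤ q → ∃ d₀ : ℕ, ∀ d : ℕ, d₀ ≤ d →
      ∀ K : Set (EuclideanSpace ℝ (Fin d)), IsLqBody.{u} n q K →
        ∃ T : Finset (EuclideanSpace ℝ (Fin d)),
          K ⊆ ⋃ t ∈ T, (fun x => t + x) '' interior K ∧ T.card < 2 ^ d) ∧
    -- the class contains the unit balls of the subspaces of `L_q(μ)`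
    (∀ (d : ℕ) (q : ℝ), 1 ≤ q → ∀ (Ω : Type u) [MeasurableSpace Ω] (μ : Measure Ω) [SFinite μ]
      (f : Fin d → Ω → ℝ), (∀ i, Measurable (f i)) → (∀ i, MemLp (f i) (ENNReal.ofReal q) μ) →
      ∀ K : Set (EuclideanSpace ℝ (Fin d)), K = {x | ∫ ω, |∑ i, x i * f i ω| ^ q ∂μ ≤ 1} →
        Bornology.IsBounded K → IsLqBody.{u} 1 q K) := by
  refine ⟨?_, ?_, ?_⟩
  · rintro d n q hd hq K ⟨hb, Ω, hΩ, μ, hμ, h, hm, hr, hi, hK⟩ s hs
    exact TH591.Sq.cover_s d hd K hb n q hq μ h hm hr hi hK s hs
  · intro n q hq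
    obtain ⟨d₀, hd₀⟩ := TH591.Sq.exists_dim n q hq
    refine ⟨max d₀ 2, fun d hd K hK => ?_⟩
    obtain ⟨h5, hlog⟩ := hd₀ d (le_trans (le_max_left _ _) hd)
    obtain ⟨hb, Ω, hΩ, μ, hμ, h, hm, hr, hi, hKd⟩ := hK
    obtain ⟨T, h1, -, h3⟩ := TH591.Sq.cover_s d (le_trans (le_max_right _ _) hd) K hb n q hq μ h hm
      hr hi hKd _ rfl
    exact ⟨T, h1, h3 h5 hlog⟩
  · intro d q hq Ω _ μ _ f hfm hf K hK hb
    subst hK
    exact isLqBody_of_memLp q hq μ f hfm hf hb

end Pool.Agent.Results.MP_eba1ef_gt.LqSumsOfSmallSpaces
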