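import Pool.Agent.TH84.HC.Asym2

/-!
# MP_eba1ef_gt: simple polytopes, and convex bodies with simple corners

Let `K` be a polytope in `ℝ^d`, `d ≥ 2`, containing an ellipsoid `𝓔` with centre `p`. If all vertices of
`K`, with the exception of at most `(1 - 33/d) 2^d` of them, are simple and lie in the dilate of `𝓔`
about `p` with factor `(d - 4 π log d)^(1/2)`, then `K` is covered by fewer than `2^d` translates of its
interior. (For a centrally symmetric body there is, by John's theorem, always an ellipsoid with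
`𝓔 ⊆ K ⊆ √d 𝓔`, and `√d` is attained by the cube.) More generally, these vertices may lie on `d + k`
facets, if the factor is at most `(d - (6/5) k - 4 π log d)^(1/2)`. The same holds, without an
ellipsoid, for polytopes whose dihedral angles at such vertices are slightly larger than a right angle,
and for all convex bodies whose extreme points are, in the sense of `Seen`, corners of order `d + k`
seen from this distance. If `R^2 log (2 + m/d) = o(d)` and the vertices lie on at most `m` facets and in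
the `R`-dilate of `𝓔`, then `(1 + o(1))^d` translates suffice.

The proof rests on an inequality for the Gaussian measure `γ` of a cone: if `φ_1, …, φ_m` are unit
vectors and `⟪x, φ_i⟫ ≥ 1` for all `i`, then
`γ {y : ⟪y, φ_i⟫ < 0 for all i} ≥ 2^(-m) exp ((m - ‖x‖²) / π)`,
with equality for an orthant (`Pool.Agent.TH84.HC.key0`); more generally, for every `u ≥ 0`, the left
side is at least `(Φ(u) exp (b²/2))^m exp (-(u + b)² ‖x‖²/2)` with `b = φ(u) / Φ(u)`
(`Pool.Agent.TH84.HC.keyU`). It is proved by repeated doubling (rotating two independent copies of the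
Gaussian vector) and the Sidak inequality for even log-concave functions. The union bound is taken
over a net in the set of all `m`-tuples of unit vectors, so that the number of facets does not matter
and the directions do not depend on the body.
-/

set_option autoImplicit false

open scoped RealInnerProductSpace

namespace Pool.Agent.Results.MP_eba1ef_gt.SimplePolytopes

open Pool.Agent.TH84.HC
open Pool.Agent.PZ871 (E)

/-- the polyhedron given by the inequalities `⟪a j, x⟫ ≤ b j` -/
def Poly {d N : ℕ} (a : Fin N → E d) (b : Fin N → ℝ) : Set (E d) := {x | ∀ j, ⟪a j, x⟫ ≤ b j}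

/-- `x` lies on at most `m` of the hyperplanes `{⟪a j, x⟫ = b j}` -/
def Order {d N : ℕ} (m : ℕ) (a : Fin N → E d) (b : Fin N → ℝ) (x : E d) : Prop :=
  {j | ⟪a j, x⟫ = b j}.ncard ≤ m

/-- any two different ones of the normals `a j` of the hyperplanes through `x` have scalar product at
least `τ` -/
def Wide {d N : ℕ} (a : Fin N → E d) (b : Fin N → ℝ) (τ : ℝ) (x : E d) : Prop :=
  ∀ i j, ⟪a i, x⟫ = b i → ⟪a j, x⟫ = b j → a i ≠ a j → τ ≤ ⟪a i, a j⟫

/-- all extreme points of `K`, with the exception of at most `(1 - 33/d) 2^d`, have the property `P` -/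
def MostExtreme {d : ℕ} (K : Set (E d)) (P : E d → Prop) : Prop :=
  ∃ F : Finset (E d), (F.card : ℝ) ≤ (1 - 33 / (d : ℝ)) * 2 ^ d ∧
    ∀ x ∈ Set.extremePoints ℝ K, x ∉ F → P x

/-- `K` is covered by fewer than `2^d` translates of its interior -/
def Fewer {d : ℕ} (K : Set (E d)) : Prop :=
  ∃ T : Finset (E d), T.card < 2 ^ d ∧ K ⊆ ⋃ t ∈ T, (fun x => t + x) '' interior K

/-- the direction `v` illuminates the point `x` of `K` -/
def Illum {d : ℕ} (K : Set (E d)) (v x : E d) : Prop :=
  ∃ t : ℝ, 0 < t ∧ x + t • v ∈ interior K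

/-- the square of the distance from which the corners of order `d + k` may be seen -/
noncomputable def rsq (d k : ℕ) : ℝ := d - 6 / 5 * k - 4 * Real.pi * Real.log d

/-- **Main theorem.** -/
theorem result :
    -- (1) polytopes containing an ellipsoid
    (∀ (d k N : ℕ) (a : Fin N → E d) (b : Fin N → ℝ), 2 ≤ d → (∀ j, a j ≠ 0) → IsBody (Poly a b) →
      ∀ (A : E d ≃L[ℝ] E d) (p : E d), ContainsEllipsoid A p (Poly a b) →
      ∀ R : ℝ, 1 ≤ R → R ^ 2 ≤ rsq d k →
      MostExtreme (Poly a b) (fun x => Order (d + k) a b x ∧ ‖A (x - p)‖ ≤ R) → Fewer (Poly a b)) ∧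
    -- (2) polytopes with large dihedral angles
    (∀ (d k N : ℕ) (a : Fin N → E d) (b : Fin N → ℝ), 2 ≤ d → (∀ j, ‖a j‖ = 1) → IsBody (Poly a b) →
      ∀ τ : ℝ, 0 ≤ τ → τ ≤ 1 → d + k ≤ (1 + τ * (d + k - 1)) * rsq d k →
      MostExtreme (Poly a b) (fun x => Order (d + k) a b x ∧ Wide a b τ x) → Fewer (Poly a b)) ∧
    -- (3) convex bodies
    (∀ (d k : ℕ) (K : Set (E d)), 2 ≤ d → IsBody K →
      ∀ (A : E d ≃L[ℝ] E d) (R : ℝ), 1 ≤ R → R ^ 2 ≤ rsq d k →
      MostExtreme K (Seen A (d + k) R K) → Fewer K) ∧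
    -- (4) explicit bounds for corners of any order, with directions not depending on the body
    (∀ (d m : ℕ) (R : ℝ), 1 ≤ d → 1 ≤ R → ∃ U : Finset (E d), (U.card : ℝ) ≤ bnd d m R ∧
      ∀ (K : Set (E d)) (A : E d ≃L[ℝ] E d), IsBody K → ∀ W : Finset (E d),
      (∀ x ∈ Set.extremePoints ℝ K, Seen A m R K x ∨ ∃ w ∈ W, Illum K w x) →
      (∀ x ∈ frontier K, (∃ u ∈ U, Illum K (A.symm u) x) ∨ ∃ w ∈ W, Illum K w x) ∧
      CoveredBy ((U.card : ℝ) + W.card) K) ∧
    -- (5) corners of any order, asymptotically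
    (∀ ε : ℝ, 0 < ε → ∃ c : ℝ, 0 < c ∧ ∃ d₀ : ℕ, ∀ d : ℕ, d₀ ≤ d →
      ∀ (m : ℕ) (R : ℝ), 1 ≤ R → R ^ 2 * Real.log (2 + m / d) ≤ c * d →
      ∀ (K : Set (E d)) (A : E d ≃L[ℝ] E d), IsBody K → ∀ F : Finset (E d),
      (∀ x ∈ Set.extremePoints ℝ K, x ∉ F → Seen A m R K x) →
      CoveredBy (F.card + (1 + ε) ^ d) K) := by
  refine ⟨?_, ?_, ?_, ?_, ?_⟩
  · rintro d k N a b hd ha hK A p hb R hR1 hR ⟨F, hFc, hF⟩
    refine simple_case_k d k hd _ A R hK hR1 hR F hFc (fun x hx hxF => ?_)
    obtain ⟨hx1, hx2⟩ := hF x hx hxF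
    have hxf : x ∈ frontier (Poly a b) := extreme_frontier (by omega) hx
    exact poly_seen a b ha A p hb hxf hx1 hx2
  · rintro d k N a b hd ha hK τ hτ0 hτ1 hτ ⟨F, hFc, hF⟩
    have hd0 : (2:ℝ) ≤ d := by exact_mod_cast hd
    have hk0 : (0:ℝ) ≤ k := Nat.cast_nonneg k
    set r : ℝ := rsq d k with hr
    set M : ℝ := (d:ℝ) + k with hM
    have hM2 : 2 ≤ M := by linarith
    have h1 : 1 + τ * (M - 1) ≤ M := by nlinarith
    have h2 : 1 ≤ 1 + τ * (M - 1) := by nlinarith
    have hr1 : 1 ≤ r := by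
      by_contra hc
      push Not at hc
      rcases le_or_gt r 0 with h3 | h3
      · nlinarith
      · nlinarith
    have hR2 : Real.sqrt r ^ 2 = r := Real.sq_sqrt (by linarith)
    have hR1 : 1 ≤ Real.sqrt r := Real.one_le_sqrt.2 hr1
    refine simple_case_k d k hd _ (ContinuousLinearEquiv.refl ℝ (E d)) (Real.sqrt r) hK hR1 hR2.le F hFc
      (fun x hx hxF => ?_)
    obtain ⟨hx1, hx2⟩ := hF x hx hxF
    have hxf : x ∈ frontier (Poly a b) := extreme_frontier (by omega) hx
    exact poly_angle (by omega) a b ha hxf hx1 τ hτ1 hτ0 hx2 (by linarith)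
      (by rw [hR2]; push_cast; exact hτ)
  · rintro d k K hd hK A R hR1 hR ⟨F, hFc, hF⟩
    exact simple_case_k d k hd K A R hK hR1 hR F hFc hF
  · intro d m R hd hR
    obtain ⟨U, hU, h⟩ := explicitU d m hd R hR le_rfl
    exact ⟨U, hU.trans (bndU_zero d m hd R hR), h⟩
  · intro ε hε
    exact asympU ε hε

end Pool.Agent.Results.MP_eba1ef_gt.SimplePolytopes
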