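import Pool.Agent.TH84.NC.Main2
import Pool.Agent.TH84.NC.Num3
import Pool.Agent.TH84.NC.Sum

/-!
# MP_eba1ef_gt: convex bodies with small normal cones

Let `K` be a convex body in `ℝ^d` all of whose extreme points have normal cones of dimension at
most `k` (a few exceptional extreme points are allowed). For smooth bodies `k = 1`; for polytopes
`k = d`. It is proved:

* If `d ≥ 1024` and `k ≤ d / 5`, then `K`, symmetric or not, is covered by fewer than `2^d`
  translates of its interior. For all `k` and all `0 < τ < 1` it is covered by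
  `1 + 4 d (d+1) log (20 d^6 + 1) ((2 - τ) / τ)^k (1 - τ)^(-d)` translates.
* If `K` is centrally symmetric and `k ≤ d/2 - (2 d log d)^(1/2)`, then `K` is covered by fewer than
  `2^d` translates of its interior. For all `k < d/2` it is covered by
  `1 + 3 d (d+1)^2 log (10 d^5 + 1) (d choose k)` translates.
* The class is closed under adding convex sets: if all extreme points of the body `A` have normal
  cones of dimension at most `k`, then so have those of `A + B` for every nonempty compact convex
  set `B` (for example, `A` may be a direct sum of smooth bodies of dimension at least 5).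

The proof in the symmetric case. Let `x` be an extreme point, `N` its normal cone, `L` the span of
`N`, of dimension at most `k`. By the Prekopa-Leindler inequality the sections of `K` by the
translates of `L^⊥` are the larger the closer they are to the centre, hence the part `K_θ` of `K`
over `θ (K|L)` has at least `θ^k` times the volume of `K`. For `w ∈ K_θ` and `n ∈ N` we have
`⟪w, n⟫ ≤ θ ⟪x, n⟫`. So all directions `(w - τ x) / (1 + τ) ∈ K` with `τ > θ` illuminate `x`, and
they fill at least the fraction `θ^k / (1 + τ)^d` of `K`. A random set of directions therefore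
illuminates all points of a net in the set of pairs `(L, x)`, with some room to spare, and hence all
extreme points.

The proof in the general case. The directions are differences `v - u` of two random points of `K`.
Let `ρ(y)` be the volume of the section of `K` over `y ∈ K|L`. The product of `ρ` at the points
`(1 - t) q + t s` and `t q + (1 - t) s` is at least `ρ(q) ρ(s)` by the Prekopa-Leindler inequality;
with `t = 1 / (2 - τ)` the second point is `(1 - τ)` times the first plus `τ q`. Hence at least
the fraction `(τ / (2 - τ))^k` of all pairs `(w, y) ∈ K × K` satisfies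
`w|L ∈ (1 - τ) y|L + τ (K|L)`. For such a pair, `n ∈ N` and
`u = (1 - τ) y + τ x` we have `⟪w, n⟫ ≤ (1 - τ) ⟪y, n⟫ + τ ⟪x, n⟫ = ⟪u, n⟫`; the map `y ↦ u` has
Jacobian `(1 - τ)^d`. To get a strict inequality, which also survives small changes of `L` and `x`,
one moves `w` a little towards a point `p ∈ K` such that
`h_{K-K}(n) ≤ 2 d (h_K(n) - ⟪p, n⟫)` for all `n`.
-/

set_option autoImplicit false

open scoped RealInnerProductSpace Pointwise

namespace Pool.Agent.Results.MP_eba1ef_gt.SmallNormalCones

open Pool.Agent.TH84.HC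
open Pool.Agent.TH84.NC
open Pool.Agent.PZ871 (E)

/-- **Main theorem.** -/
theorem result :
    -- (1) all bodies
    (∀ (d k : ℕ) (K : Set (E d)), 1024 ≤ d → 5 * k ≤ d → IsBody K →
      ∀ F : Finset (E d), (F.card : ℝ) ≤ (1 - 1 / d) * 2 ^ d →
      (∀ x ∈ Set.extremePoints ℝ K, x ∉ F → NormalDim K k x) →
      ∃ T : Finset (E d), T.card < 2 ^ d ∧ K ⊆ ⋃ t ∈ T, (fun x => t + x) '' interior K) ∧
    -- (2) centrally symmetric bodies
    (∀ (d k : ℕ) (K : Set (E d)), 2 ≤ d → 2 * k ≤ d → 8 * (d * Real.log d) ≤ (d - 2 * k : ℝ) ^ 2 →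
      IsBody K → (∀ x ∈ K, -x ∈ K) →
      ∀ F : Finset (E d), (F.card : ℝ) ≤ (1 - 4 / d) * 2 ^ d →
      (∀ x ∈ Set.extremePoints ℝ K, x ∉ F → NormalDim K k x) →
      ∃ T : Finset (E d), T.card < 2 ^ d ∧ K ⊆ ⋃ t ∈ T, (fun x => t + x) '' interior K) ∧
    -- (3) explicit bounds
    (∀ (d k : ℕ) (K : Set (E d)) (F : Finset (E d)), 1 ≤ k → k ≤ d → IsBody K →
      (∀ x ∈ Set.extremePoints ℝ K, x ∉ F → NormalDim K k x) →
      (∀ τ : ℝ, 0 < τ → τ < 1 → CoveredBy (F.card + (1 + 4 * (d * (d + 1)) *
        Real.log (20 * d ^ 6 + 1) * (((2 - τ) / τ) ^ k / (1 - τ) ^ d))) K) ∧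
      ((∀ x ∈ K, -x ∈ K) → 2 * k < d → CoveredBy (F.card +
        (1 + 3 * (d * (d + 1) ^ 2) * Real.log (10 * d ^ 5 + 1) * d.choose k)) K)) ∧
    -- (4) the class is closed under adding convex sets
    (∀ (d k : ℕ) (A B : Set (E d)), IsBody A → Convex ℝ B → IsCompact B → B.Nonempty →
      (∀ x ∈ Set.extremePoints ℝ A, NormalDim A k x) →
      IsBody (A + B) ∧ ∀ x ∈ Set.extremePoints ℝ (A + B), NormalDim (A + B) k x) := by
  have key : ∀ {d : ℕ} {x y : ℝ} {K : Set (E d)}, x < y → CoveredBy x K →
      y ≤ 2 ^ d → ∃ T : Finset (E d), T.card < 2 ^ d ∧ K ⊆ ⋃ t ∈ T, (fun x => t + x) '' interior K := by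
    rintro d x y K hxy ⟨T, hT, hcov⟩ hy
    refine ⟨T, ?_, hcov⟩
    have : (T.card : ℝ) < 2 ^ d := by linarith
    exact_mod_cast this
  refine ⟨?_, ?_, ?_, fun d k A B hA hB hBc hBn h => ⟨body_add hA hB hBc hBn, normal_add h⟩⟩
  · intro d k K hd hk hK F hFc hF
    have hc := cover_of_ext d k (by omega) K hK _
      (illum_pairs d k (by omega) K hK (9 / 50) (by norm_num) (by norm_num)) F hF
    have hnum := pairs_num hd hk
    refine key ?_ hc le_rfl
    linarith
  · intro d k K hd hk h8 hK hsym F hFc hF
    obtain ⟨hlt, hnum⟩ := strict_num hd hk h8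
    obtain ⟨θ, h0, h1, hθ⟩ := rate_exp (by omega : 1 ≤ d) hlt
    have hc := cover_of_ext d k (by omega) K hK _ (illum_sym d k (by omega) K hK hsym θ h0 h1) F hF
    refine key ?_ hc le_rfl
    have hlogn : 0 ≤ Real.log (10 * (d:ℝ) ^ 5 + 1) := by
      apply Real.log_nonneg
      have : 0 ≤ 10 * (d:ℝ) ^ 5 := by positivity
      linarith
    have h2 := mul_le_mul_of_nonneg_left hθ
      (show 0 ≤ (d * ((d:ℝ) + 1)) * Real.log (10 * d ^ 5 + 1) by positivity)
    linarith
  · intro d k K F hk hkd hK hF
    have hd : 1 ≤ d := by omega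
    constructor
    · intro τ h0 h1
      exact cover_of_ext d k hd K hK _ (illum_pairs d k hd K hK τ h0 h1) F hF
    · intro hsym h2k
      obtain ⟨θ, h0, h1, hθ⟩ := rate_choose hk h2k
      obtain ⟨T, hT, hcov⟩ := cover_of_ext d k hd K hK _ (illum_sym d k hd K hK hsym θ h0 h1) F hF
      refine ⟨T, hT.trans ?_, hcov⟩
      have hlogn : 0 ≤ Real.log (10 * (d:ℝ) ^ 5 + 1) := by
        apply Real.log_nonneg
        have : 0 ≤ 10 * (d:ℝ) ^ 5 := by positivity
        linarith
      have h2 := mul_le_mul_of_nonneg_left hθ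
        (show 0 ≤ (d * ((d:ℝ) + 1)) * Real.log (10 * d ^ 5 + 1) by positivity)
      have h3 : (d * ((d:ℝ) + 1)) * Real.log (10 * d ^ 5 + 1) * (3 * ((d + 1) * (d.choose k : ℝ))) ≤
          3 * (d * (d + 1) ^ 2) * Real.log (10 * d ^ 5 + 1) * d.choose k := by
        have h4 : 0 ≤ (d * ((d:ℝ) + 1) ^ 2) * Real.log (10 * d ^ 5 + 1) * d.choose k := by positivity
        nlinarith
      linarith

end Pool.Agent.Results.MP_eba1ef_gt.SmallNormalCones
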